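import Pool.Agent.Helper40.Ct.Goals

set_option autoImplicit false

/-!
MP_034a88_co, packet GENL.
-/

namespace Pool.Agent.Helper62.Ct

open Pool.Agent.Helper40.Ct Finset

theorem genl : GENL := by
  classical
  intro d r α u π l X _ hlX hGen A c hA hc hsum
  let q : Fin (l.map fun q => enc π (u q.1 q.2) q.2).length → α × El d r := fun s =>
    l.get (Fin.cast (by simp) s)
  have hget : ∀ s, (l.map fun q => enc π (u q.1 q.2) q.2).get s =
      enc π (u (q s).1 (q s).2) (q s).2 := by
    intro s
    simp [q]
  have hcoord : ∀ (k : Fin (d + 1)) (j : Fin (r + 1)),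
      ∑ s ∈ A.filter (fun s => part π (q s).2 = j),
        c s * (Fin.cons 1 (u (q s).1 (q s).2) : Fin (d + 1) → ℝ) k = if k = 0 then 1 else 0 := by
    intro k j
    have h1 := congrFun hsum (finProdFinEquiv (k, j))
    simp only [bvec, Equiv.symm_apply_apply, Finset.sum_apply, Pi.smul_apply, smul_eq_mul,
      hget] at h1
    rw [← h1, Finset.sum_filter]
    refine Finset.sum_congr rfl fun s _ => ?_
    unfold enc
    rw [Equiv.symm_apply_apply]
    by_cases h : part π (q s).2 = j
    · rw [if_pos h, if_pos h.symm]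
    · rw [if_neg h, if_neg (Ne.symm h), mul_zero]
  obtain ⟨j, _, hj⟩ := Finset.exists_card_fiber_lt_of_card_lt_mul (s := A)
    (t := (univ : Finset (Fin (r + 1)))) (f := fun s => part π (q s).2) (n := d + 1) (by
      rw [card_univ, Fintype.card_fin]
      exact lt_of_lt_of_eq hA (Nat.mul_comm _ _))
  let B := A.filter (fun s => part π (q s).2 = j)
  have hB : B.card ≤ d := Nat.lt_succ_iff.mp hj
  let A' := B.image q
  let c' : α × El d r → ℝ := fun y => ∑ s ∈ B.filter (fun s => q s = y), c s
  have hfib : ∀ g : α × El d r → ℝ, ∑ y ∈ A', c' y * g y = ∑ s ∈ B, c s * g (q s) := by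
    intro g
    rw [← Finset.sum_fiberwise_of_maps_to (s := B) (t := A') (g := q)
      (fun s hs => Finset.mem_image_of_mem q hs)]
    refine Finset.sum_congr rfl fun y _ => ?_
    rw [Finset.sum_mul]
    refine Finset.sum_congr rfl fun s hs => ?_
    rw [(Finset.mem_filter.1 hs).2]
  have h1 : ∑ y ∈ A', c' y = 1 := by
    have h2 := hfib (fun _ => 1)
    simp only [mul_one] at h2
    rw [h2]
    have h3 := hcoord 0 j
    simp only [Fin.cons_zero, mul_one, if_true] at h3
    exact h3
  refine hGen A' c' ?_ (le_trans Finset.card_image_le hB) ?_ h1 ?_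
  · intro y hy
    obtain ⟨s, _, rfl⟩ := Finset.mem_image.1 hy
    exact hlX _ (List.get_mem _ _)
  · intro y _
    exact Finset.sum_nonneg fun s _ => hc s
  · funext k
    rw [Finset.sum_apply]
    simp only [Pi.smul_apply, smul_eq_mul, Pi.zero_apply]
    rw [hfib (fun y => u y.1 y.2 k)]
    have h3 := hcoord k.succ j
    simp only [Fin.cons_succ, Fin.succ_ne_zero, if_false] at h3
    exact h3

end Pool.Agent.Helper62.Ct
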